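import Mathlib
import Pool.Agent.H.MP_743583_al.Main

set_option autoImplicit false

namespace Pool.Agent.Results.MP_743583_al.FreeProduct

/-- Sofic action of a group on a set, the action being given as a homomorphism to permutations. -/
def IsSofic {G X : Type} [Group G] (α : G →* Equiv.Perm X) : Prop :=
  ∀ (F : Finset G) (E : Finset X) (ε : ℝ), 0 < ε →
    ∃ (A : Type) (_ : Finite A) (φ : G → Equiv.Perm A), φ 1 = 1 ∧
      (∀ g ∈ F, ∀ h ∈ F,
        (({a | φ (g * h) a ≠ (φ g * φ h) a} : Set A).ncard : ℝ) / Nat.card A < ε) ∧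
      ∃ (B : Type) (_ : Finite B) (S : Set A) (π : S → (E ↪ B)),
        (1 - ε) * Nat.card A < S.ncard ∧
        ∀ (s : S) (g : G) (x : E), g ∈ F → ∀ (h1 : φ g s ∈ S) (h2 : α g⁻¹ x ∈ E),
          π ⟨φ g s, h1⟩ x = π s ⟨α g⁻¹ x, h2⟩

/-- The free product of sofic actions on one set is sofic. -/
theorem result {I X : Type} {G : I → Type} [∀ i, Group (G i)] (α : ∀ i, G i →* Equiv.Perm X)
    (h : ∀ i, IsSofic (α i)) : IsSofic (Monoid.CoprodI.lift α) :=
  fun F E ε hε => Pool.Agent.H.MP_743583_al.main α h F E ε hε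

end Pool.Agent.Results.MP_743583_al.FreeProduct
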